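import Pool.Agent.Lib.MP_99e3ed_co.H90.Hlike

set_option autoImplicit false

open Finset
open Classical

namespace Pool.Agent.Lib.MP_99e3ed_co.H90

lemma card_indep {V : Type*} [Fintype V] [DecidableEq V] (G : SimpleGraph V)
    [DecidableRel G.Adj] (k : ℕ) :
    (G.indepSetFinset k).card = cnt G univ k := by
  unfold cnt
  congr 1
  ext I
  simp only [SimpleGraph.mem_indepSetFinset_iff, Finset.mem_filter, Finset.mem_powersetCard,
    Finset.subset_univ, true_and]
  exact ⟨fun h => ⟨h.card_eq, h.isIndepSet⟩, fun h => ⟨h.2, h.1⟩⟩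

/-- The upper bound: a graph with maximum degree at most `d`, with `2 d q + r` vertices and at least
`d ^ 2 q` edges has at most as many independent sets of each size as `q` copies of `K_{d,d}` and
`r` isolated vertices. -/
theorem upper (d q r : ℕ) (hd : 1 ≤ d) {V : Type*} [Fintype V]
    (hV : Fintype.card V = 2 * d * q + r) (G : SimpleGraph V) (hdeg : ∀ v, G.degree v ≤ d)
    (hE : d ^ 2 * q ≤ G.edgeFinset.card) (k : ℕ) :
    ((cnt G univ k : ℕ) : ℚ) ≤ ph d k (d * q + r) q := by
  have hnb : ∀ v, (nb G univ v).card = G.degree v := by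
    intro v
    rw [← SimpleGraph.card_neighborFinset_eq_degree]
    congr 1
    ext u
    simp [nb]
  match k with
  | 0 => rw [cnt_zero, ph_coeff_zero]; norm_num
  | 1 =>
    rw [cnt_one, ph_one_coeff d _ _ hd (by omega), Finset.card_univ, hV]
    push_cast
    linarith
  | k + 2 =>
    have h1 := main_bound G d hd k univ (d * q + r) (d * q)
      (fun u _ => by rw [hnb]; exact hdeg u)
      (by rw [Finset.card_univ, hV]; ring)
      (by
        rw [ed_eq]
        have : ∑ v : V, (nb G univ v).card = 2 * G.edgeFinset.card := by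
          rw [← SimpleGraph.sum_degrees_eq_twice_card_edges]
          exact Finset.sum_congr rfl fun v _ => hnb v
        rw [this]
        have h2 : d * (d * q) = d ^ 2 * q := by ring
        rw [h2]
        omega)
    have h2 := Cb_eq d (k + 2) (d * q + r) q 0 (by omega)
    rw [add_zero] at h2
    rw [h2] at h1
    simpa using h1

/-- the block function of `kddUnion` -/
def blk (d m : ℕ) : Fin m × Bool × Fin d → Option (Fin m × Bool) := fun x => some (x.1, x.2.1)

lemma kdd_adj (d m : ℕ) (x y : Fin m × Bool × Fin d) :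
    (kddUnion d m).Adj x y ↔ ∃ i b, blk d m x = some (i, b) ∧ blk d m y = some (i, !b) := by
  unfold kddUnion blk
  rw [SimpleGraph.fromRel_adj]
  obtain ⟨i, b, a⟩ := x
  obtain ⟨i', b', a'⟩ := y
  simp only [ne_eq, Prod.mk.injEq, not_and, Option.some.injEq]
  constructor
  · rintro ⟨_, h | h⟩
    · refine ⟨i, b, ⟨rfl, rfl⟩, h.1.symm, ?_⟩
      have := h.2
      cases b <;> cases b' <;> simp_all
    · refine ⟨i, b, ⟨rfl, rfl⟩, h.1, ?_⟩
      have := h.2
      cases b <;> cases b' <;> simp_all
  · rintro ⟨j, c, ⟨rfl, rfl⟩, rfl, rfl⟩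
    refine ⟨?_, Or.inl ⟨rfl, ?_⟩⟩
    · intro _ h
      cases b <;> simp_all
    · cases b <;> simp

lemma kdd_fib (d m : ℕ) (i : Fin m) (b : Bool) :
    ((univ : Finset (Fin m × Bool × Fin d)).filter (fun w => blk d m w = some (i, b))).card = d := by
  have : (univ : Finset (Fin m × Bool × Fin d)).filter (fun w => blk d m w = some (i, b)) =
      (univ : Finset (Fin d)).image (fun a => (i, b, a)) := by
    ext ⟨i', b', a⟩
    simp only [blk, Finset.mem_filter, Finset.mem_univ, true_and, Option.some.injEq,
      Prod.mk.injEq, Finset.mem_image]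
    constructor
    · rintro ⟨rfl, rfl⟩
      exact ⟨a, rfl, rfl, rfl⟩
    · rintro ⟨a', h1, h2, _⟩
      exact ⟨h1.symm, h2.symm⟩
  rw [this, Finset.card_image_of_injective _ (by
    intro a a' h
    simpa using h)]
  simp

/-- the number of independent `k`-sets of `m` copies of `K_{d,d}` -/
theorem kdd_cnt (d m : ℕ) (hd : 1 ≤ d) (k : ℕ) :
    ((cnt (kddUnion d m) univ k : ℕ) : ℚ) = ph d k (d * m) m := by
  have h := hlike_cnt (kddUnion d m) (blk d m) d hd (kdd_adj d m)
    (fun i b => by convert kdd_fib d m i b) k univ univ (d * m)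
    (fun _ _ _ _ _ => Finset.mem_univ _) (fun i hi => absurd (Finset.mem_univ i) hi)
    (by simp; ring) (by simp)
  simpa using h

/-- the number of independent `k`-sets of `q` copies of `K_{d,d}` and `r` isolated vertices -/
theorem kdd_sum_cnt (d q r : ℕ) (hd : 1 ≤ d) (k : ℕ) :
    ((cnt (kddUnion d q ⊕g (⊥ : SimpleGraph (Fin r))) univ k : ℕ) : ℚ) =
      ph d k (d * q + r) q := by
  obtain ⟨c, hc⟩ : ∃ c : (Fin q × Bool × Fin d) ⊕ Fin r → Option (Fin q × Bool),
      c = Sum.elim (blk d q) (fun _ => none) := ⟨_, rfl⟩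
  have hadj : ∀ x y, (kddUnion d q ⊕g (⊥ : SimpleGraph (Fin r))).Adj x y ↔
      ∃ i b, c x = some (i, b) ∧ c y = some (i, !b) := by
    intro x y
    rw [hc]
    cases x with
    | inl x =>
      cases y with
      | inl y =>
        rw [SimpleGraph.sum_adj_inl, kdd_adj]
        simp
      | inr y => simp [SimpleGraph.sum]
    | inr x =>
      cases y with
      | inl y => simp [SimpleGraph.sum]
      | inr y => simp [SimpleGraph.sum]
  have hfib : ∀ i b, ((univ : Finset ((Fin q × Bool × Fin d) ⊕ Fin r)).filter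
      (fun w => c w = some (i, b))).card = d := by
    intro i b
    have : (univ : Finset ((Fin q × Bool × Fin d) ⊕ Fin r)).filter
        (fun w => c w = some (i, b)) =
        ((univ : Finset (Fin q × Bool × Fin d)).filter (fun w => blk d q w = some (i, b))).image
          Sum.inl := by
      ext w
      rw [hc]
      cases w with
      | inl w => simp
      | inr w => simp
    rw [this, Finset.card_image_of_injective _ Sum.inl_injective]
    exact kdd_fib d q i b
  have h := hlike_cnt (kddUnion d q ⊕g (⊥ : SimpleGraph (Fin r))) c d hd hadj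
    (fun i b => by convert hfib i b) k univ univ
    (d * q + r)
    (fun _ _ _ _ _ => Finset.mem_univ _) (fun i hi => absurd (Finset.mem_univ i) hi)
    (by simp; ring) (by simp)
  simpa using h

theorem kahn_general (d q r : ℕ) (hd : 1 ≤ d) {V : Type*} [Fintype V]
    (hV : Fintype.card V = 2 * d * q + r) (G : SimpleGraph V) (hdeg : ∀ v, G.degree v ≤ d)
    (hE : d ^ 2 * q ≤ G.edgeFinset.card) (k : ℕ) :
    (G.indepSetFinset k).card ≤
      ((kddUnion d q ⊕g (⊥ : SimpleGraph (Fin r))).indepSetFinset k).card := by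
  rw [card_indep, card_indep]
  have h1 := upper d q r hd hV G hdeg hE k
  rw [← kdd_sum_cnt d q r hd k] at h1
  exact_mod_cast h1

theorem kahn_regular (d m : ℕ) (hd : 1 ≤ d) {V : Type*} [Fintype V]
    (hV : Fintype.card V = 2 * d * m) (G : SimpleGraph V) (hG : G.IsRegularOfDegree d) (k : ℕ) :
    (G.indepSetFinset k).card ≤ ((kddUnion d m).indepSetFinset k).card := by
  rw [card_indep, card_indep]
  have hE : d ^ 2 * m ≤ G.edgeFinset.card := by
    have h1 := G.sum_degrees_eq_twice_card_edges
    have h2 : ∑ v : V, G.degree v = 2 * d * m * d := by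
      rw [Finset.sum_congr rfl (fun v _ => hG.degree_eq v), Finset.sum_const, Finset.card_univ, hV,
        smul_eq_mul]
    rw [h2] at h1
    have h3 : 2 * d * m * d = 2 * (d ^ 2 * m) := by ring
    omega
  have h1 := upper d m 0 hd (by rw [hV]; ring) G (fun v => (hG.degree_eq v).le) hE k
  rw [add_zero, ← kdd_cnt d m hd k] at h1
  exact_mod_cast h1

end Pool.Agent.Lib.MP_99e3ed_co.H90
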