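import Pool.Agent.Lib.MP_99e3ed_co.H90.Poly

set_option autoImplicit false

namespace Pool.Agent.Lib.MP_99e3ed_co.H90

/-- the slope to the right of `d q` -/
noncomputable def Sl (d j L q : ℕ) : ℚ :=
  if d * (q + 1) ≤ L then ph d j L (q + 1) - ph d j L q
  else if 1 ≤ q then 2 * (ph d j L q - ph d j L (q - 1))
  else 2 * ph d j L 0

/-- the slope to the left of `d q` -/
noncomputable def Sm (d j L q : ℕ) : ℚ :=
  if 1 ≤ q then ph d j L q - ph d j L (q - 1)
  else if d ≤ L then ph d j L 0 - ((L - d).choose j : ℚ)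
  else ph d j L 0

/-- the bound function: piecewise linear interpolation -/
noncomputable def Cb (d j L s : ℕ) : ℚ :=
  ph d j L (s / d) + ((s % d : ℕ) : ℚ) / d * Sl d j L (s / d)

lemma Cb_eq (d j L q r : ℕ) (hr : r < d) :
    Cb d j L (d * q + r) = ph d j L q + (r : ℚ) / d * Sl d j L q := by
  unfold Cb
  have h1 : (d * q + r) / d = q := by
    rw [Nat.mul_add_div (by omega)]
    simp [Nat.div_eq_of_lt hr]
  have h2 : (d * q + r) % d = r := by
    rw [Nat.mul_add_mod]
    exact Nat.mod_eq_of_lt hr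
  rw [h1, h2]

lemma Sm_nonneg (d j L q : ℕ) (h : d * q ≤ L) : 0 ≤ Sm d j L q := by
  unfold Sm
  split_ifs with h1 h2
  · obtain ⟨p, rfl⟩ : ∃ p, q = p + 1 := ⟨q - 1, by omega⟩
    have := slope_nonneg d j L p h
    simp only [Nat.add_sub_cancel]
    linarith
  · rw [ph_zero_right]
    have : (L - d).choose j ≤ L.choose j := Nat.choose_le_choose j (Nat.sub_le _ _)
    have : ((L - d).choose j : ℚ) ≤ (L.choose j : ℚ) := by exact_mod_cast this
    linarith
  · exact ph_nonneg _ _ _ _

lemma Sm_le_Sl (d j L q : ℕ) (h : d * q ≤ L) : Sm d j L q ≤ Sl d j L q := by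
  have h0 := Sm_nonneg d j L q h
  unfold Sm at *
  unfold Sl
  by_cases h1 : 1 ≤ q
  · obtain ⟨p, rfl⟩ : ∃ p, q = p + 1 := ⟨q - 1, by omega⟩
    simp only [h1, if_true, Nat.add_sub_cancel] at *
    split_ifs with h2
    · exact slope_mono d j L p h2
    · linarith
  · obtain rfl : q = 0 := by omega
    simp only [h1, if_false, Nat.zero_add, mul_one] at *
    by_cases h2 : d ≤ L
    · simp only [h2, if_true]
      rw [ph_one_right d j L h2, ph_zero_right]
      linarith
    · simp only [h2, if_false] at *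
      linarith

lemma Sl_le (d j L q : ℕ) (h : d * q ≤ L) : Sl d j L q ≤ 2 * Sm d j L q := by
  have h0 := Sm_nonneg d j L q h
  unfold Sm at *
  unfold Sl
  by_cases h1 : 1 ≤ q
  · obtain ⟨p, rfl⟩ : ∃ p, q = p + 1 := ⟨q - 1, by omega⟩
    simp only [h1, if_true, Nat.add_sub_cancel] at *
    split_ifs with h2
    · exact slope_le_two d j L p h2
    · exact le_rfl
  · obtain rfl : q = 0 := by omega
    simp only [h1, if_false, Nat.zero_add, mul_one] at *
    by_cases h2 : d ≤ L
    · rw [if_pos h2, if_pos h2] at *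
      rw [ph_one_right d j L h2]
      rw [ph_zero_right] at *
      linarith
    · rw [if_neg h2, if_neg h2]

/-- a sequence with nondecreasing differences is convex -/
lemma convex_aux (g : ℕ → ℚ) (hg : ∀ t, g (t + 1) - g t ≤ g (t + 2) - g (t + 1)) (b n : ℕ) :
    ((n : ℚ) + 1) * (g (b + n) - g b) ≤ n * (g (b + (n + 1)) - g b) := by
  induction n with
  | zero => simp
  | succ n ih =>
    have h1 := hg (b + n)
    have e1 : b + n + 1 = b + (n + 1) := by ring
    have e2 : b + n + 2 = b + (n + 1 + 1) := by ring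
    rw [e1, e2] at h1
    push_cast
    nlinarith

lemma convex_nat (g : ℕ → ℚ) (hg : ∀ t, g (t + 1) - g t ≤ g (t + 2) - g (t + 1)) (b a d : ℕ)
    (h : a ≤ d) : (d : ℚ) * (g (b + a) - g b) ≤ a * (g (b + d) - g b) := by
  induction d, h using Nat.le_induction with
  | base => exact le_rfl
  | succ d had ih =>
    rcases Nat.eq_zero_or_pos d with h0 | h0
    · subst h0
      obtain rfl : a = 0 := by omega
      simp
    · have h1 := convex_aux g hg b d
      have hd : (0 : ℚ) < d := by exact_mod_cast h0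
      have ha : (0 : ℚ) ≤ a := by positivity
      have h2 : (d : ℚ) * (((d + 1 : ℕ) : ℚ) * (g (b + a) - g b)) ≤
          d * (a * (g (b + (d + 1)) - g b)) := by
        push_cast
        nlinarith
      exact le_of_mul_le_mul_left h2 hd

lemma choose_diff (j t : ℕ) : (((t + 1).choose j : ℚ) - (t.choose j : ℚ)) ≤
    ((t + 2).choose j : ℚ) - ((t + 1).choose j : ℚ) := by
  cases j with
  | zero => simp
  | succ j =>
    have h1 : (t + 1).choose (j + 1) = t.choose j + t.choose (j + 1) := Nat.choose_succ_succ _ _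
    have h2 : (t + 2).choose (j + 1) = (t + 1).choose j + (t + 1).choose (j + 1) :=
      Nat.choose_succ_succ _ _
    have h3 : t.choose j ≤ (t + 1).choose j := Nat.choose_le_choose j (Nat.le_succ _)
    rw [h2, h1]
    have h4 : (t.choose j : ℚ) ≤ ((t + 1).choose j : ℚ) := by exact_mod_cast h3
    push_cast
    linarith

/-- the trivial bound at `s' = - a`, compared to the left line at `0` -/
lemma choose_le_left (d j M a : ℕ) (hd : 1 ≤ d) (hj : 1 ≤ j) (ha : a ≤ d) (haM : a ≤ M) :
    ((M - a).choose j : ℚ) ≤ ph d j M 0 - (a : ℚ) / d * Sm d j M 0 := by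
  have hdq : (0 : ℚ) < d := by exact_mod_cast hd
  unfold Sm
  rw [if_neg (by norm_num), ph_zero_right]
  by_cases h : d ≤ M
  · rw [if_pos h]
    have h1 := convex_nat (fun t => (t.choose j : ℚ)) (choose_diff j) (M - d) (d - a) d (by omega)
    have e1 : M - d + (d - a) = M - a := by omega
    have e2 : M - d + d = M := by omega
    simp only [e1, e2] at h1
    rw [Nat.cast_sub ha] at h1
    rw [div_mul_eq_mul_div, le_sub_iff_add_le, ← le_sub_iff_add_le', div_le_iff₀ hdq]
    nlinarith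
  · rw [if_neg h]
    have hM : M < d := by omega
    obtain ⟨i, rfl⟩ : ∃ i, j = i + 1 := ⟨j - 1, by omega⟩
    -- M * choose (M - a) (i+1) ≤ (M - a) * choose M (i+1)
    have key : M * (M - a).choose (i + 1) ≤ (M - a) * M.choose (i + 1) := by
      rcases Nat.eq_zero_or_pos (M - a) with h0 | h0
      · rw [h0]; simp
      · obtain ⟨b, hb⟩ : ∃ b, M - a = b + 1 := ⟨M - a - 1, by omega⟩
        obtain ⟨c, hc⟩ : ∃ c, M = c + 1 := ⟨M - 1, by omega⟩
        rw [hb, hc]
        have h1 := Nat.add_one_mul_choose_eq b i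
        have h2 := Nat.add_one_mul_choose_eq c i
        have h3 : b.choose i ≤ c.choose i := Nat.choose_le_choose i (by omega)
        have h4 : (i + 1) * ((c + 1) * (b + 1).choose (i + 1)) ≤
            (i + 1) * ((b + 1) * (c + 1).choose (i + 1)) := by
          calc (i + 1) * ((c + 1) * (b + 1).choose (i + 1))
              = (c + 1) * ((b + 1).choose (i + 1) * (i + 1)) := by ring
            _ = (c + 1) * ((b + 1) * b.choose i) := by rw [h1]
            _ ≤ (c + 1) * ((b + 1) * c.choose i) := by gcongr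
            _ = (b + 1) * ((c + 1) * c.choose i) := by ring
            _ = (b + 1) * ((c + 1).choose (i + 1) * (i + 1)) := by rw [h2]
            _ = (i + 1) * ((b + 1) * (c + 1).choose (i + 1)) := by ring
        exact Nat.le_of_mul_le_mul_left h4 (by omega)
    have keyQ : (M : ℚ) * ((M - a).choose (i + 1) : ℚ) ≤ (M - a) * (M.choose (i + 1) : ℚ) := by
      have : ((M * (M - a).choose (i + 1) : ℕ) : ℚ) ≤ (((M - a) * M.choose (i + 1) : ℕ) : ℚ) := by
        exact_mod_cast key
      push_cast [Nat.cast_sub haM] at this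
      exact this
    have hc0 : (0 : ℚ) ≤ (M.choose (i + 1) : ℚ) := by positivity
    rw [div_mul_eq_mul_div, le_sub_iff_add_le, ← le_sub_iff_add_le', div_le_iff₀ hdq]
    rcases Nat.eq_zero_or_pos M with h0 | h0
    · subst h0
      obtain rfl : a = 0 := by omega
      simp
    · have hMq : (0 : ℚ) < M := by exact_mod_cast h0
      have hMd : (M : ℚ) ≤ d := by exact_mod_cast hM.le
      have haq : (0 : ℚ) ≤ a := by positivity
      -- choose(M-a) ≤ (1 - a/M) choose M ≤ (1 - a/d) choose M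
      have h5 : (a : ℚ) * (M.choose (i + 1) : ℚ) ≤
          ((M.choose (i + 1) : ℚ) - ((M - a).choose (i + 1) : ℚ)) * M := by nlinarith
      have h6 : (0 : ℚ) ≤ (M.choose (i + 1) : ℚ) - ((M - a).choose (i + 1) : ℚ) := by
        have := Nat.choose_le_choose (i + 1) (Nat.sub_le M a)
        have : ((M - a).choose (i + 1) : ℚ) ≤ (M.choose (i + 1) : ℚ) := by exact_mod_cast this
        linarith
      calc (a : ℚ) * (M.choose (i + 1) : ℚ)
          ≤ ((M.choose (i + 1) : ℚ) - ((M - a).choose (i + 1) : ℚ)) * M := h5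
        _ ≤ ((M.choose (i + 1) : ℚ) - ((M - a).choose (i + 1) : ℚ)) * d := by gcongr

/-- the bound function to the left of `d q`, `q ≥ 1` -/
lemma Cb_left (d j M q r δ : ℕ) (hd : 1 ≤ d) (hq : 1 ≤ q) (hqM : d * q ≤ M) (hrδ : r < δ)
    (hδ : δ ≤ d) :
    Cb d j M (d * q + r - δ) = ph d j M q - ((δ : ℚ) - r) / d * Sm d j M q := by
  obtain ⟨p, rfl⟩ : ∃ p, q = p + 1 := ⟨q - 1, by omega⟩
  have e : d * (p + 1) + r - δ = d * p + (d + r - δ) := by
    rw [Nat.mul_add, mul_one]; omega
  rw [e, Cb_eq d j M p (d + r - δ) (by omega)]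
  unfold Sl Sm
  rw [if_pos hqM, if_pos hq, Nat.add_sub_cancel]
  have h1 : ((d + r - δ : ℕ) : ℚ) = (d : ℚ) + r - δ := by
    rw [Nat.cast_sub (by omega)]; push_cast; ring
  rw [h1]
  have hdq : (d : ℚ) ≠ 0 := by positivity
  field_simp
  ring

/-- the pointwise bound by the chord: `δ ≤ r` -/
lemma chord_right (d j M q r δ : ℕ) (hd : 1 ≤ d) (hqM : d * q ≤ M) (hr : r < d) (hδ : δ ≤ r) :
    Cb d j M (d * q + r - δ) ≤ ph d j M q + (r : ℚ) / d * Sl d j M q -
      (δ : ℚ) / d * ((r : ℚ) / d * Sl d j M q + (1 - (r : ℚ) / d) * Sm d j M q) := by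
  have e : d * q + r - δ = d * q + (r - δ) := by omega
  rw [e, Cb_eq d j M q (r - δ) (by omega), Nat.cast_sub hδ]
  have h1 := Sm_le_Sl d j M q hqM
  have hdq : (0 : ℚ) < d := by exact_mod_cast hd
  have ht : (r : ℚ) / d ≤ 1 := by
    rw [div_le_one hdq]; exact_mod_cast hr.le
  have hδ0 : (0 : ℚ) ≤ (δ : ℚ) / d := by positivity
  have h2 : ((r : ℚ) - δ) / d = (r : ℚ) / d - (δ : ℚ) / d := by ring
  rw [h2]
  have h3 : 0 ≤ (δ : ℚ) / d * ((1 - (r : ℚ) / d) * (Sl d j M q - Sm d j M q)) :=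
    mul_nonneg hδ0 (mul_nonneg (by linarith) (by linarith))
  nlinarith

/-- the pointwise bound by the chord: `δ > r` -/
lemma chord_left (d j M q r δ : ℕ) (hd : 1 ≤ d) (hqM : d * q ≤ M) (hδ : δ ≤ d) :
    ph d j M q - ((δ : ℚ) - r) / d * Sm d j M q ≤ ph d j M q + (r : ℚ) / d * Sl d j M q -
      (δ : ℚ) / d * ((r : ℚ) / d * Sl d j M q + (1 - (r : ℚ) / d) * Sm d j M q) := by
  have h1 := Sm_le_Sl d j M q hqM
  have hdq : (0 : ℚ) < d := by exact_mod_cast hd
  have ht : (δ : ℚ) / d ≤ 1 := by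
    rw [div_le_one hdq]; exact_mod_cast hδ
  have hr0 : (0 : ℚ) ≤ (r : ℚ) / d := by positivity
  have h2 : ((δ : ℚ) - r) / d = (δ : ℚ) / d - (r : ℚ) / d := by ring
  rw [h2]
  have h3 : 0 ≤ (r : ℚ) / d * ((1 - (δ : ℚ) / d) * (Sl d j M q - Sm d j M q)) :=
    mul_nonneg hr0 (mul_nonneg (by linarith) (by linarith))
  nlinarith

/-- the algebra of the inductive step -/
lemma step_alg (d j M q r : ℕ) (hd : 1 ≤ d) (hqM : d * q ≤ M) (hr : r < d) :
    ((M : ℚ) + 1 + (d * q + r)) * (ph d j M q + (r : ℚ) / d * Sl d j M q) -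
      2 * (d * q + r) * ((r : ℚ) / d * Sl d j M q + (1 - (r : ℚ) / d) * Sm d j M q) ≤
    ((j : ℚ) + 1) * (ph d (j + 1) (M + 1) q + (r : ℚ) / d * Sl d (j + 1) (M + 1) q) := by
  have hdq : (0 : ℚ) < d := by exact_mod_cast hd
  obtain ⟨t, ht⟩ : ∃ t : ℚ, t = (r : ℚ) / d := ⟨_, rfl⟩
  have hrt : (r : ℚ) = d * t := by rw [ht]; field_simp
  have ht0 : 0 ≤ t := by rw [ht]; positivity
  have ht1 : t ≤ 1 := by
    rw [ht, div_le_one hdq]; exact_mod_cast hr.le
  rw [← ht, hrt]
  have hs := ph_succ d j M q hd (by omega)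
  have hστ := Sl_le d j M q hqM
  have hτσ := Sm_le_Sl d j M q hqM
  by_cases h1 : d * (q + 1) ≤ M + 1
  · -- interior
    have hs1 := ph_succ d j M (q + 1) hd h1
    have e1 : Sl d (j + 1) (M + 1) q = ph d (j + 1) (M + 1) (q + 1) - ph d (j + 1) (M + 1) q := by
      unfold Sl; rw [if_pos h1]
    have e2 : ((M : ℚ) + 1 - d * ((q + 1 : ℕ) : ℚ)) * ph d j M (q + 1) =
        ((M : ℚ) + 1 - d * ((q + 1 : ℕ) : ℚ)) * (ph d j M q + Sl d j M q) := by
      by_cases h2 : d * (q + 1) ≤ M
      · unfold Sl; rw [if_pos h2]; ring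
      · have h3 : d * (q + 1) = M + 1 := by omega
        have h4 : ((M : ℚ) + 1 - d * ((q + 1 : ℕ) : ℚ)) = 0 := by
          have : ((d * (q + 1) : ℕ) : ℚ) = ((M + 1 : ℕ) : ℚ) := by rw [h3]
          push_cast at this ⊢
          linarith
        rw [h4, zero_mul, zero_mul]
    have e3 : (2 : ℚ) * d * q * ph d j M (q - 1) = 2 * d * q * (ph d j M q - Sm d j M q) := by
      by_cases h2 : 1 ≤ q
      · unfold Sm; rw [if_pos h2]; ring
      · obtain rfl : q = 0 := by omega
        simp
    rw [e3] at hs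
    rw [e2, Nat.add_sub_cancel] at hs1
    rw [e1]
    push_cast at hs1
    have h5 : 0 ≤ d * (t * (1 - t)) * (2 * Sm d j M q - Sl d j M q) := by
      have : 0 ≤ 1 - t := by linarith
      have : 0 ≤ 2 * Sm d j M q - Sl d j M q := by linarith
      positivity
    nlinarith
  · have h2 : ¬ d * (q + 1) ≤ M := by omega
    by_cases h3 : 1 ≤ q
    · obtain ⟨p, rfl⟩ : ∃ p, q = p + 1 := ⟨q - 1, by omega⟩
      have e1 : Sl d (j + 1) (M + 1) (p + 1) =
          2 * (ph d (j + 1) (M + 1) (p + 1) - ph d (j + 1) (M + 1) p) := by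
        unfold Sl; rw [if_neg h1, if_pos h3, Nat.add_sub_cancel]
      have e2 : Sl d j M (p + 1) = 2 * (ph d j M (p + 1) - ph d j M p) := by
        unfold Sl; rw [if_neg h2, if_pos h3, Nat.add_sub_cancel]
      have e3 : Sm d j M (p + 1) = ph d j M (p + 1) - ph d j M p := by
        unfold Sm; rw [if_pos h3, Nat.add_sub_cancel]
      have hdp : d * p ≤ M + 1 := by
        have : d * p ≤ d * (p + 1) := Nat.mul_le_mul_left d (Nat.le_succ p)
        omega
      have hs0 := ph_succ d j M p hd hdp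
      rw [Nat.add_sub_cancel] at hs
      have h4 : 0 ≤ 2 * ph d j M p - ph d j M (p + 1) := by
        have := ph_le_two d j M p hqM; linarith
      -- 4 p ρ - 2 p σ ≥ 0
      have h5 : 0 ≤ (p : ℚ) * (4 * (ph d j M p - ph d j M (p - 1)) -
          2 * (ph d j M (p + 1) - ph d j M p)) := by
        rcases Nat.eq_zero_or_pos p with h0 | h0
        · subst h0; simp
        · obtain ⟨o, rfl⟩ : ∃ o, p = o + 1 := ⟨p - 1, by omega⟩
          have := slope_le_two d j M o (by simpa [add_assoc] using hqM)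
          rw [Nat.add_sub_cancel]
          have h6 : 0 ≤ 4 * (ph d j M (o + 1) - ph d j M o) -
              2 * (ph d j M (o + 1 + 1) - ph d j M (o + 1)) := by
            have e : o + 1 + 1 = o + 2 := rfl
            rw [e]; linarith
          positivity
      rw [e1, e2, e3]
      push_cast at hs ⊢
      have h7 : 0 ≤ d * t * ((2 * ph d j M p - ph d j M (p + 1)) +
          (p : ℚ) * (4 * (ph d j M p - ph d j M (p - 1)) -
          2 * (ph d j M (p + 1) - ph d j M p))) := by positivity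
      nlinarith
    · obtain rfl : q = 0 := by omega
      have hM : ¬ d ≤ M := by simpa using h2
      have e1 : Sl d (j + 1) (M + 1) 0 = 2 * ph d (j + 1) (M + 1) 0 := by
        unfold Sl; rw [if_neg h1, if_neg h3]
      have e2 : Sl d j M 0 = 2 * ph d j M 0 := by
        unfold Sl; rw [if_neg h2, if_neg h3]
      have e3 : Sm d j M 0 = ph d j M 0 := by
        unfold Sm; rw [if_neg h3, if_neg hM]
      rw [e1, e2, e3]
      have h4 : 0 ≤ ph d j M 0 := ph_nonneg _ _ _ _
      have h5 : 0 ≤ d * t * ph d j M 0 := by positivity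
      simp only [Nat.cast_zero, mul_zero, zero_mul, add_zero, sub_zero, zero_add] at hs ⊢
      nlinarith

lemma ph_one_coeff (d L q : ℕ) (hd : 1 ≤ d) (h : d * q ≤ L) :
    ph d 1 L q = (L : ℚ) + d * q := by
  rcases Nat.eq_zero_or_pos L with h0 | h0
  · subst h0
    have hq : q = 0 := by
      rcases Nat.eq_zero_or_pos q with h1 | h1
      · exact h1
      · have : 1 ≤ d * q := Nat.mul_pos hd h1
        omega
    subst hq
    rw [ph_zero_right]
    simp
  · obtain ⟨M, rfl⟩ : ∃ M, L = M + 1 := ⟨L - 1, by omega⟩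
    have := ph_succ d 0 M q hd h
    rw [ph_coeff_zero, ph_coeff_zero] at this
    push_cast at this ⊢
    linarith

lemma ph_two_coeff (d L q : ℕ) (hd : 1 ≤ d) (h : d * q ≤ L) :
    2 * ph d 2 L q = ((L : ℚ) + d * q) * (L + d * q - 1) - 2 * d * (d * q) := by
  rcases Nat.eq_zero_or_pos L with h0 | h0
  · subst h0
    have hq : q = 0 := by
      rcases Nat.eq_zero_or_pos q with h1 | h1
      · exact h1
      · have : 1 ≤ d * q := Nat.mul_pos hd h1
        omega
    subst hq
    rw [ph_zero_right]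
    simp
  · obtain ⟨M, rfl⟩ : ∃ M, L = M + 1 := ⟨L - 1, by omega⟩
    have h1 := ph_succ d 1 M q hd h
    have e2 : ((M : ℚ) + 1 - d * q) * ph d 1 M q = ((M : ℚ) + 1 - d * q) * (M + d * q) := by
      by_cases h2 : d * q ≤ M
      · rw [ph_one_coeff d M q hd h2]
      · have h3 : d * q = M + 1 := by omega
        have h4 : ((M : ℚ) + 1 - d * q) = 0 := by
          have : ((d * q : ℕ) : ℚ) = ((M + 1 : ℕ) : ℚ) := by rw [h3]
          push_cast at this ⊢
          linarith
        rw [h4, zero_mul, zero_mul]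
    have e3 : (2 : ℚ) * d * q * ph d 1 M (q - 1) = 2 * d * q * (M + d * q - d) := by
      rcases Nat.eq_zero_or_pos q with h2 | h2
      · subst h2; simp
      · obtain ⟨p, rfl⟩ : ∃ p, q = p + 1 := ⟨q - 1, by omega⟩
        rw [Nat.add_sub_cancel, ph_one_coeff d M p hd]
        · push_cast; ring
        · have : d * (p + 1) = d * p + d := by ring
          omega
    rw [e2, e3] at h1
    push_cast at h1 ⊢
    norm_num at h1
    linarith

/-- the base case `j = 2` -/
lemma base_alg (d L q r : ℕ) (hd : 1 ≤ d) (hr : r < d) (hL : d * q + r ≤ L) :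
    ((L : ℚ) + (d * q + r)) * (L + (d * q + r) - 1) - 2 * d * (d * q + r) ≤
      2 * Cb d 2 L (d * q + r) := by
  rw [Cb_eq d 2 L q r hr]
  have hdq : (0 : ℚ) < d := by exact_mod_cast hd
  have h0 := ph_two_coeff d L q hd (by omega)
  have hrd : (r : ℚ) ≤ d := by exact_mod_cast hr.le
  have hr0 : (0 : ℚ) ≤ r := by positivity
  rcases Nat.eq_zero_or_pos r with hz | hz
  · subst hz
    simp only [Nat.cast_zero, zero_div, zero_mul, add_zero]
    linarith
  have hr1 : (1 : ℚ) ≤ r := by exact_mod_cast hz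
  have hLq : (d : ℚ) * q + r ≤ L := by exact_mod_cast hL
  have key : ∀ T : ℚ, r * (2 * (L : ℚ) + 2 * (d * q) + r - 1 - 2 * d) ≤ (r : ℚ) / d * T →
      ((L : ℚ) + (d * q + r)) * (L + (d * q + r) - 1) - 2 * d * (d * q + r) ≤
        2 * ph d 2 L q + (r : ℚ) / d * T := by
    intro T hT
    rw [h0]
    nlinarith
  have e : 2 * (ph d 2 L q + (r : ℚ) / d * Sl d 2 L q) =
      2 * ph d 2 L q + (r : ℚ) / d * (2 * Sl d 2 L q) := by ring
  rw [e]
  apply key
  have hcancel : ∀ T : ℚ, (2 * (L : ℚ) + 2 * (d * q) + r - 1 - 2 * d) * d ≤ T →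
      r * (2 * (L : ℚ) + 2 * (d * q) + r - 1 - 2 * d) ≤ (r : ℚ) / d * T := by
    intro T hT
    rw [div_mul_eq_mul_div, le_div_iff₀ hdq]
    nlinarith
  apply hcancel
  by_cases h1 : d * (q + 1) ≤ L
  · unfold Sl
    rw [if_pos h1]
    have h2 := ph_two_coeff d L (q + 1) hd h1
    push_cast at h2
    nlinarith
  · by_cases h2 : 1 ≤ q
    · unfold Sl
      rw [if_neg h1, if_pos h2]
      obtain ⟨p, rfl⟩ : ∃ p, q = p + 1 := ⟨q - 1, by omega⟩
      rw [Nat.add_sub_cancel]
      have h3 := ph_two_coeff d L p hd (by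
        have : d * (p + 1) = d * p + d := by ring
        omega)
      push_cast at *
      have hp : (0 : ℚ) ≤ p := by positivity
      have h4 : 0 ≤ (d : ℚ) * (d * p) := by positivity
      have h5 : 2 * (2 * (ph d 2 L (p + 1) - ph d 2 L p)) =
          2 * (d * (2 * L + 2 * (d * p) + d - 1 - 2 * d)) := by
        linarith
      rw [h5]
      nlinarith
    · obtain rfl : q = 0 := by omega
      unfold Sl
      rw [if_neg h1, if_neg h2]
      have hLd : (L : ℚ) + 1 ≤ d := by
        have : L + 1 ≤ d := by omega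
        exact_mod_cast this
      simp only [Nat.cast_zero, mul_zero, add_zero, zero_add, sub_zero] at *
      have h5 : 2 * (2 * ph d 2 L 0) = 2 * (L * (L - 1)) := by linarith
      rw [h5]
      have hL0 : (r : ℚ) ≤ L := hLq
      nlinarith [mul_nonneg (by linarith : (0:ℚ) ≤ L - r) hdq.le,
        sq_nonneg ((L : ℚ) - d * (3/4)), sq_nonneg ((d : ℚ) - L), mul_pos hdq hdq]

end Pool.Agent.Lib.MP_99e3ed_co.H90
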