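import Pool.Agent.Lib.MP_99e3ed_co.Basic
import Pool.Agent.Lib.MP_99e3ed_co.H90.Bound

set_option autoImplicit false

open Finset
open Classical

namespace Pool.Agent.Lib.MP_99e3ed_co.H90

section graph

variable {V : Type*} (G : SimpleGraph V)

/-- the number of independent sets of size `j` inside `S` -/
noncomputable def cnt (S : Finset V) (j : ℕ) : ℕ :=
  ((S.powersetCard j).filter (fun I : Finset V => G.IsIndepSet (I : Set V))).card

/-- the neighbours of `v` inside `S` -/
noncomputable def nb (S : Finset V) (v : V) : Finset V := S.filter (fun u => G.Adj v u)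

/-- `S` minus the closed neighbourhood of `v` -/
noncomputable def del (S : Finset V) (v : V) : Finset V :=
  S.filter (fun u => u ≠ v ∧ ¬ G.Adj v u)

lemma cnt_le_choose (S : Finset V) (j : ℕ) : cnt G S j ≤ S.card.choose j := by
  unfold cnt
  refine (Finset.card_filter_le _ _).trans ?_
  rw [Finset.card_powersetCard]

lemma cnt_zero (S : Finset V) : cnt G S 0 = 1 := by
  unfold cnt
  rw [Finset.powersetCard_zero, Finset.filter_singleton, if_pos]
  · simp
  · simp [SimpleGraph.IsIndepSet]

lemma cnt_one (S : Finset V) : cnt G S 1 = S.card := by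
  unfold cnt
  rw [Finset.filter_true_of_mem, Finset.card_powersetCard, Nat.choose_one_right]
  intro I hI
  rw [Finset.mem_powersetCard, Finset.card_eq_one] at hI
  obtain ⟨a, ha⟩ := hI.2
  rw [ha]
  simp [SimpleGraph.IsIndepSet]

lemma cnt_succ (S : Finset V) (j : ℕ) :
    (j + 1) * cnt G S (j + 1) = ∑ v ∈ S, cnt G (del G S v) j := by
  have h1 : (j + 1) * cnt G S (j + 1) =
      ∑ I ∈ (S.powersetCard (j + 1)).filter (fun I : Finset V => G.IsIndepSet (I : Set V)),
        ∑ v ∈ S, if v ∈ I then 1 else 0 := by
    unfold cnt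
    rw [mul_comm, ← smul_eq_mul, ← Finset.sum_const]
    refine Finset.sum_congr rfl fun I hI => ?_
    rw [Finset.mem_filter, Finset.mem_powersetCard] at hI
    rw [← Finset.card_filter, ← hI.1.2]
    congr 1
    ext v
    simp only [Finset.mem_filter]
    exact ⟨fun h => ⟨hI.1.1 h, h⟩, fun h => h.2⟩
  rw [h1, Finset.sum_comm]
  refine Finset.sum_congr rfl fun v hv => ?_
  rw [← Finset.card_filter]
  unfold cnt
  refine Finset.card_bij' (fun I _ => I.erase v) (fun J _ => insert v J) ?_ ?_ ?_ ?_
  · intro I hI
    simp only [Finset.mem_filter, Finset.mem_powersetCard] at hI ⊢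
    obtain ⟨⟨⟨hIS, hc⟩, hind⟩, hvI⟩ := hI
    refine ⟨⟨?_, ?_⟩, ?_⟩
    · intro u hu
      rw [Finset.mem_erase] at hu
      unfold del
      rw [Finset.mem_filter]
      refine ⟨hIS hu.2, hu.1, ?_⟩
      exact hind (by exact_mod_cast hvI) (by exact_mod_cast hu.2) (Ne.symm hu.1)
    · rw [Finset.card_erase_of_mem hvI, hc]; rfl
    · exact hind.mono (by simp)
  · intro J hJ
    simp only [Finset.mem_filter, Finset.mem_powersetCard] at hJ ⊢
    obtain ⟨⟨hJS, hc⟩, hind⟩ := hJ
    have hvJ : v ∉ J := by
      intro h
      have := hJS h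
      unfold del at this
      rw [Finset.mem_filter] at this
      exact this.2.1 rfl
    refine ⟨⟨⟨?_, ?_⟩, ?_⟩, Finset.mem_insert_self _ _⟩
    · intro u hu
      rw [Finset.mem_insert] at hu
      rcases hu with rfl | hu
      · exact hv
      · have := hJS hu
        unfold del at this
        rw [Finset.mem_filter] at this
        exact this.1
    · rw [Finset.card_insert_of_notMem hvJ, hc]
    · rw [Finset.coe_insert, SimpleGraph.IsIndepSet, Set.pairwise_insert]
      refine ⟨hind, fun b hb _ => ?_⟩
      have := hJS (by exact_mod_cast hb)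
      unfold del at this
      rw [Finset.mem_filter] at this
      exact ⟨this.2.2, fun h => this.2.2 h.symm⟩
  · intro I hI
    simp only [Finset.mem_filter] at hI
    exact Finset.insert_erase hI.2
  · intro J hJ
    have hvJ : v ∉ J := by
      intro h
      simp only [Finset.mem_filter, Finset.mem_powersetCard] at hJ
      have := hJ.1.1 h
      unfold del at this
      rw [Finset.mem_filter] at this
      exact this.2.1 rfl
    exact Finset.erase_insert hvJ

lemma cnt_empty (j : ℕ) : cnt G ∅ (j + 1) = 0 := by
  have := cnt_succ G ∅ j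
  rw [Finset.sum_empty] at this
  have h : j + 1 ≠ 0 := by omega
  exact (Nat.mul_eq_zero.1 this).resolve_left h

lemma card_del (S : Finset V) (v : V) (hv : v ∈ S) :
    (del G S v).card + (nb G S v).card + 1 = S.card := by
  have h1 : S = insert v (del G S v ∪ nb G S v) := by
    ext u
    simp only [del, nb, Finset.mem_insert, Finset.mem_union, Finset.mem_filter]
    constructor
    · intro hu
      by_cases h : u = v
      · exact Or.inl h
      · by_cases h' : G.Adj v u
        · exact Or.inr (Or.inr ⟨hu, h'⟩)
        · exact Or.inr (Or.inl ⟨hu, h, h'⟩)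
    · rintro (h | h | h)
      · rw [h]; exact hv
      · exact h.1
      · exact h.1
  have h2 : v ∉ del G S v ∪ nb G S v := by
    simp [del, nb]
  have h3 : Disjoint (del G S v) (nb G S v) := by
    rw [Finset.disjoint_left]
    intro u hu hu'
    simp only [del, nb, Finset.mem_filter] at hu hu'
    exact hu.2.2 hu'.2
  conv_rhs => rw [h1]
  rw [Finset.card_insert_of_notMem h2, Finset.card_union_of_disjoint h3]

lemma ed_eq (S T : Finset V) : ed G S T = ∑ v ∈ S, (nb G T v).card := rfl

lemma ed_le (S T : Finset V) (d : ℕ) (h : ∀ v ∈ S, (nb G T v).card ≤ d) :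
    ed G S T ≤ S.card * d := by
  rw [ed_eq, ← smul_eq_mul]
  exact Finset.sum_le_card_nsmul _ _ _ h

/-- edges lost when a closed neighbourhood is removed -/
lemma ed_del (S : Finset V) (v : V) (hv : v ∈ S) (d : ℕ)
    (hd : ∀ u ∈ S, (nb G S u).card ≤ d) :
    ed G S S ≤ ed G (del G S v) (del G S v) + 2 * (d * (nb G S v).card) := by
  have h1 : S = (del G S v ∪ nb G S v) ∪ {v} := by
    ext u
    simp only [del, nb, Finset.mem_union, Finset.mem_filter, Finset.mem_singleton]
    constructor
    · intro hu
      by_cases h : u = v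
      · exact Or.inr h
      · by_cases h' : G.Adj v u
        · exact Or.inl (Or.inr ⟨hu, h'⟩)
        · exact Or.inl (Or.inl ⟨hu, h, h'⟩)
    · rintro ((h | h) | h)
      · exact h.1
      · exact h.1
      · rw [h]; exact hv
  have h2 : Disjoint (del G S v ∪ nb G S v) {v} := by
    rw [Finset.disjoint_singleton_right]
    simp [del, nb]
  have h3 : Disjoint (del G S v) (nb G S v) := by
    rw [Finset.disjoint_left]
    intro u hu hu'
    simp only [del, nb, Finset.mem_filter] at hu hu'
    exact hu.2.2 hu'.2
  have hsplit : ∀ A : Finset V, ed G A S =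
      ed G A (del G S v) + ed G A (nb G S v) + ed G A {v} := by
    intro A
    conv_lhs => rw [h1]
    rw [ed_union G A _ _ h2, ed_union G A _ _ h3]
  have a1 : ed G S S = ed G S (del G S v) + ed G S (nb G S v) + ed G S {v} := hsplit S
  have a2 : ed G (del G S v) S = ed G (del G S v) (del G S v) + ed G (del G S v) (nb G S v) +
      ed G (del G S v) {v} := hsplit _
  have a3 : ed G (nb G S v) S = ed G (nb G S v) (del G S v) + ed G (nb G S v) (nb G S v) +
      ed G (nb G S v) {v} := hsplit _
  have a4 : ed G {v} S = ed G {v} (del G S v) + ed G {v} (nb G S v) + ed G {v} {v} := hsplit _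
  have b1 : ed G {v} (del G S v) = 0 := by
    refine ed_eq_zero G _ _ fun a ha b hb h => ?_
    rw [Finset.mem_singleton] at ha
    subst ha
    simp only [del, Finset.mem_filter] at hb
    exact hb.2.2 h
  have b2 : ed G {v} {v} = 0 := by
    refine ed_eq_zero G _ _ fun a ha b hb h => ?_
    rw [Finset.mem_singleton] at ha hb
    subst ha; subst hb
    exact G.loopless.irrefl _ h
  have c1 := ed_comm G S (del G S v)
  have c2 := ed_comm G S (nb G S v)
  have c3 := ed_comm G S {v}
  have c4 := ed_comm G (del G S v) (nb G S v)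
  have c5 := ed_comm G (del G S v) {v}
  have c6 := ed_comm G (nb G S v) {v}
  have hle : ed G (nb G S v) S ≤ (nb G S v).card * d := by
    refine ed_le G _ _ d fun u hu => hd u ?_
    simp only [nb, Finset.mem_filter] at hu
    exact hu.1
  have hle' : (nb G S v).card * d = d * (nb G S v).card := mul_comm _ _
  omega

/-- **Main bound.** A set `S` of `L + s` vertices, all degrees inside `S` at most `d`, with at
least `d s` edges inside, has at most `Cb d j L s` independent sets of size `j ≥ 2`. -/
theorem main_bound (d : ℕ) (hd : 1 ≤ d) (j : ℕ) :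
    ∀ (S : Finset V) (L s : ℕ), (∀ u ∈ S, (nb G S u).card ≤ d) → S.card = L + s →
      2 * (d * s) ≤ ed G S S → ((cnt G S (j + 2) : ℕ) : ℚ) ≤ Cb d (j + 2) L s := by
  have hdq : (0 : ℚ) < d := by exact_mod_cast hd
  -- `s ≤ L` always
  have hsL : ∀ (S : Finset V) (L s : ℕ), (∀ u ∈ S, (nb G S u).card ≤ d) → S.card = L + s →
      2 * (d * s) ≤ ed G S S → s ≤ L := by
    intro S L s hdeg hcard hE
    have h1 := ed_le G S S d hdeg
    rw [hcard] at h1
    have h2 : d * (2 * s) ≤ d * (L + s) := by
      calc d * (2 * s) = 2 * (d * s) := by ring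
        _ ≤ ed G S S := hE
        _ ≤ (L + s) * d := h1
        _ = d * (L + s) := by ring
    have := Nat.le_of_mul_le_mul_left h2 (by omega)
    omega
  induction j with
  | zero =>
    intro S L s hdeg hcard hE
    have hs := hsL S L s hdeg hcard hE
    have h1 := cnt_succ G S 1
    have h2 : ∑ v ∈ S, cnt G (del G S v) 1 + ed G S S + S.card = S.card * S.card := by
      rw [ed_eq]
      have : ∑ v ∈ S, cnt G (del G S v) 1 + ∑ v ∈ S, (nb G S v).card + ∑ v ∈ S, 1 =
          ∑ v ∈ S, S.card := by
        rw [← Finset.sum_add_distrib, ← Finset.sum_add_distrib]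
        refine Finset.sum_congr rfl fun v hv => ?_
        rw [cnt_one]
        exact card_del G S v hv
      rw [Finset.sum_const, Finset.sum_const, smul_eq_mul, smul_eq_mul, mul_one] at this
      exact this
    have h3 : ((2 : ℚ) * (cnt G S 2 : ℕ)) + (ed G S S : ℕ) + (S.card : ℕ) = S.card * S.card := by
      have : 2 * cnt G S 2 + ed G S S + S.card = S.card * S.card := by
        rw [← h2, ← h1]
      exact_mod_cast this
    have hEq : 2 * ((d : ℚ) * s) ≤ (ed G S S : ℕ) := by exact_mod_cast hE
    have hcq : ((S.card : ℕ) : ℚ) = L + s := by exact_mod_cast hcard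
    have hb := base_alg d L (s / d) (s % d) hd (Nat.mod_lt _ (by omega))
      (by rw [Nat.div_add_mod]; exact hs)
    rw [Nat.div_add_mod] at hb
    have hsd : (d : ℚ) * ((s / d : ℕ) : ℚ) + ((s % d : ℕ) : ℚ) = s := by
      exact_mod_cast Nat.div_add_mod s d
    rw [hsd] at hb
    rw [hcq] at h3
    show ((cnt G S 2 : ℕ) : ℚ) ≤ Cb d 2 L s
    nlinarith
  | succ j ih =>
    intro S L s hdeg hcard hE
    have hs := hsL S L s hdeg hcard hE
    have h1 := cnt_succ G S (j + 2)
    have h1q : ((j : ℚ) + 3) * (cnt G S (j + 3) : ℕ) = ∑ v ∈ S, ((cnt G (del G S v) (j + 2) : ℕ) : ℚ) := by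
      have : (((j + 2 + 1) * cnt G S (j + 2 + 1) : ℕ) : ℚ) =
          ((∑ v ∈ S, cnt G (del G S v) (j + 2) : ℕ) : ℚ) := by rw [h1]
      push_cast at this
      rw [← this]
      ring
    rcases Nat.eq_zero_or_pos L with hL0 | hLpos
    · -- empty set
      have hs0 : s = 0 := by omega
      have hSe : S = ∅ := by
        rw [← Finset.card_eq_zero]; omega
      rw [hSe, cnt_empty G (j + 2)]
      have : Cb d (j + 1 + 2) L s = ph d (j + 1 + 2) L 0 := by
        have := Cb_eq d (j + 1 + 2) L 0 0 (by omega)
        rw [hs0]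
        simpa using this
      rw [this]
      simpa using ph_nonneg d (j + 1 + 2) L 0
    obtain ⟨M, rfl⟩ : ∃ M, L = M + 1 := ⟨L - 1, by omega⟩
    obtain ⟨q, hq⟩ : ∃ q, q = s / d := ⟨_, rfl⟩
    obtain ⟨r, hr⟩ : ∃ r, r = s % d := ⟨_, rfl⟩
    have hrd : r < d := by rw [hr]; exact Nat.mod_lt _ (by omega)
    have hsqr : s = d * q + r := by rw [hq, hr]; exact (Nat.div_add_mod s d).symm
    -- facts about `del`
    have hdel : ∀ v ∈ S, (∀ u ∈ del G S v, (nb G (del G S v) u).card ≤ d) ∧
        (del G S v).card + (nb G S v).card = M + s ∧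
        2 * (d * s) ≤ ed G (del G S v) (del G S v) + 2 * (d * (nb G S v).card) := by
      intro v hv
      refine ⟨?_, ?_, ?_⟩
      · intro u hu
        have huS : u ∈ S := by
          simp only [del, Finset.mem_filter] at hu; exact hu.1
        refine le_trans (Finset.card_le_card ?_) (hdeg u huS)
        intro w hw
        simp only [nb, del, Finset.mem_filter] at hw ⊢
        exact ⟨hw.1.1, hw.2⟩
      · have := card_del G S v hv
        omega
      · exact hE.trans (ed_del G S v hv d hdeg)
    by_cases hqM : d * q ≤ M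
    · -- the generic case
      have hpt : ∀ v ∈ S, ((cnt G (del G S v) (j + 2) : ℕ) : ℚ) ≤
          (ph d (j + 2) M q + (r : ℚ) / d * Sl d (j + 2) M q) -
            (((nb G S v).card : ℕ) : ℚ) / d * ((r : ℚ) / d * Sl d (j + 2) M q +
              (1 - (r : ℚ) / d) * Sm d (j + 2) M q) := by
        intro v hv
        obtain ⟨hd1, hd2, hd3⟩ := hdel v hv
        obtain ⟨δ, hδ⟩ : ∃ δ, δ = (nb G S v).card := ⟨_, rfl⟩
        have hδd : δ ≤ d := by rw [hδ]; exact hdeg v hv
        rw [← hδ] at hd2 hd3 ⊢
        by_cases hδs : δ ≤ s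
        · have hI := ih (del G S v) M (s - δ) hd1 (by omega) (by
            have : d * (s - δ) + d * δ = d * s := by
              rw [← Nat.mul_add, Nat.sub_add_cancel hδs]
            omega)
          refine hI.trans ?_
          rw [hsqr]
          by_cases hδr : δ ≤ r
          · exact chord_right d (j + 2) M q r δ hd hqM hrd hδr
          · have hq1 : 1 ≤ q := by
              rcases Nat.eq_zero_or_pos q with h0 | h0
              · rw [h0] at hsqr; simp at hsqr; omega
              · exact h0
            rw [Cb_left d (j + 2) M q r δ hd hq1 hqM (by omega) hδd]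
            exact chord_left d (j + 2) M q r δ hd hqM hδd
        · have hq0 : q = 0 := by
            rcases Nat.eq_zero_or_pos q with h0 | h0
            · exact h0
            · have : d * 1 ≤ d * q := Nat.mul_le_mul_left d h0
              omega
          have hsr : s = r := by rw [hsqr, hq0]; simp
          refine le_trans ?_ (chord_left d (j + 2) M q r δ hd hqM hδd)
          have hc := cnt_le_choose G (del G S v) (j + 2)
          have hcard' : (del G S v).card = M - (δ - r) := by omega
          rw [hcard'] at hc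
          have hc' : ((cnt G (del G S v) (j + 2) : ℕ) : ℚ) ≤
              ((M - (δ - r)).choose (j + 2) : ℚ) := by exact_mod_cast hc
          refine hc'.trans ?_
          rw [hq0]
          have := choose_le_left d (j + 2) M (δ - r) hd (by omega) (by omega) (by omega)
          rw [Nat.cast_sub (by omega)] at this
          exact this
      have hsum : ∑ v ∈ S, ((cnt G (del G S v) (j + 2) : ℕ) : ℚ) ≤
          ((M : ℚ) + 1 + (d * q + r)) * (ph d (j + 2) M q + (r : ℚ) / d * Sl d (j + 2) M q) -
          2 * (d * q + r) * ((r : ℚ) / d * Sl d (j + 2) M q +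
            (1 - (r : ℚ) / d) * Sm d (j + 2) M q) := by
        refine (Finset.sum_le_sum hpt).trans ?_
        rw [Finset.sum_sub_distrib, Finset.sum_const, nsmul_eq_mul, ← Finset.sum_mul,
          ← Finset.sum_div]
        have hcq : ((S.card : ℕ) : ℚ) = (M : ℚ) + 1 + (d * q + r) := by
          rw [hcard, hsqr]; push_cast; ring
        rw [hcq]
        have hEq : 2 * ((d : ℚ) * (d * q + r)) ≤ ∑ v ∈ S, (((nb G S v).card : ℕ) : ℚ) := by
          have : 2 * (d * s) ≤ ∑ v ∈ S, (nb G S v).card := hE
          rw [hsqr] at this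
          exact_mod_cast this
        have hβ : 0 ≤ (r : ℚ) / d * Sl d (j + 2) M q + (1 - (r : ℚ) / d) * Sm d (j + 2) M q := by
          have h1 := Sm_nonneg d (j + 2) M q hqM
          have h2 := Sm_le_Sl d (j + 2) M q hqM
          have h3 : (r : ℚ) / d ≤ 1 := by
            rw [div_le_one hdq]; exact_mod_cast hrd.le
          have h4 : (0 : ℚ) ≤ (r : ℚ) / d := by positivity
          have h5 : 0 ≤ Sl d (j + 2) M q := h1.trans h2
          have h6 : 0 ≤ 1 - (r : ℚ) / d := by linarith
          positivity
        have hdiv : 2 * ((d : ℚ) * q + r) ≤ (∑ v ∈ S, (((nb G S v).card : ℕ) : ℚ)) / d := by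
          rw [le_div_iff₀ hdq]; linarith
        have := mul_le_mul_of_nonneg_right hdiv hβ
        linarith
      have halg := step_alg d (j + 2) M q r hd hqM hrd
      have hCb := Cb_eq d (j + 3) (M + 1) q r hrd
      show ((cnt G S (j + 3) : ℕ) : ℚ) ≤ Cb d (j + 3) (M + 1) s
      rw [hsqr, hCb]
      have hj : (0 : ℚ) < (j : ℚ) + 3 := by positivity
      refine le_of_mul_le_mul_left ?_ hj
      rw [h1q]
      refine hsum.trans (halg.trans (le_of_eq ?_))
      push_cast
      ring
    · -- `s = d q = L`, every vertex has degree `d`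
      have hr0 : r = 0 := by omega
      have hqL : d * q = M + 1 := by omega
      have hq1 : 1 ≤ q := by
        rcases Nat.eq_zero_or_pos q with h0 | h0
        · rw [h0] at hqL; simp at hqL
        · exact h0
      have hall : ∀ v ∈ S, (nb G S v).card = d := by
        by_contra hcon
        push Not at hcon
        obtain ⟨v, hv, hne⟩ := hcon
        have h3 : ∑ v ∈ S, (nb G S v).card < ∑ v ∈ S, d :=
          Finset.sum_lt_sum hdeg ⟨v, hv, lt_of_le_of_ne (hdeg v hv) hne⟩
        rw [Finset.sum_const, smul_eq_mul, hcard] at h3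
        have h4 : 2 * (d * s) ≤ ∑ v ∈ S, (nb G S v).card := hE
        have h5 : (M + 1 + s) * d = 2 * (d * s) := by
          have : s = M + 1 := by omega
          rw [this]; ring
        omega
      obtain ⟨p, rfl⟩ : ∃ p, q = p + 1 := ⟨q - 1, by omega⟩
      have hdp : d * (p + 1) = d * p + d := by ring
      have hpt : ∀ v ∈ S, ((cnt G (del G S v) (j + 2) : ℕ) : ℚ) ≤ ph d (j + 2) M p := by
        intro v hv
        obtain ⟨hd1, hd2, hd3⟩ := hdel v hv
        have hδ := hall v hv
        rw [hδ] at hd2 hd3
        have hsd : s = d * p + d := by omega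
        have hI := ih (del G S v) M (d * p + 0) hd1 (by omega) (by
          rw [hsd] at hd3
          have : d * (d * p + d) = d * (d * p + 0) + d * d := by ring
          omega)
        rw [Cb_eq d (j + 2) M p 0 (by omega)] at hI
        simpa using hI
      have halg := ph_succ d (j + 2) M (p + 1) hd (by omega)
      have hCb := Cb_eq d (j + 3) (M + 1) (p + 1) 0 (by omega)
      show ((cnt G S (j + 3) : ℕ) : ℚ) ≤ Cb d (j + 3) (M + 1) s
      have hs' : s = d * (p + 1) + 0 := by omega
      rw [hs', hCb]
      simp only [Nat.cast_zero, zero_div, zero_mul, add_zero]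
      have hj : (0 : ℚ) < (j : ℚ) + 3 := by positivity
      refine le_of_mul_le_mul_left ?_ hj
      rw [h1q]
      refine (Finset.sum_le_sum hpt).trans ?_
      rw [Finset.sum_const, nsmul_eq_mul]
      have hc : ((S.card : ℕ) : ℚ) = 2 * d * ((p + 1 : ℕ) : ℚ) := by
        have : S.card = 2 * (d * (p + 1)) := by omega
        rw [this]; push_cast; ring
      rw [hc]
      rw [Nat.add_sub_cancel] at halg
      have hz : (M : ℚ) + 1 - d * ((p + 1 : ℕ) : ℚ) = 0 := by
        have : ((d * (p + 1) : ℕ) : ℚ) = ((M + 1 : ℕ) : ℚ) := by rw [hqL]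
        push_cast at this ⊢
        linarith
      rw [hz, zero_mul, zero_add] at halg
      have : ((j + 2 : ℕ) : ℚ) + 1 = (j : ℚ) + 3 := by push_cast; ring
      rw [this] at halg
      linarith

end graph

end Pool.Agent.Lib.MP_99e3ed_co.H90
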