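import Pool.Agent.Lib.MP_99e3ed_co.H90.Count

set_option autoImplicit false

open Finset
open Classical

namespace Pool.Agent.Lib.MP_99e3ed_co.H90

section hlike

variable {W ι : Type*} [Fintype W] [Fintype ι] (H : SimpleGraph W) (c : W → Option (ι × Bool))

/-- the vertices of `S` lying in one of the blocks of `K` -/
noncomputable def inBlocks (S : Finset W) (K : Finset ι) : Finset W :=
  S.filter (fun w => ∃ i ∈ K, ∃ b, c w = some (i, b))

/-- In a disjoint union of copies of `K_{d,d}` (indexed by `ι`) and isolated vertices, a set `S`
which contains all the blocks of `K` and misses one side of every other block has as many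
independent sets as `|K|` copies of `K_{d,d}` plus isolated vertices. -/
theorem hlike_cnt (d : ℕ) (hd : 1 ≤ d)
    (hadj : ∀ x y, H.Adj x y ↔ ∃ i b, c x = some (i, b) ∧ c y = some (i, !b))
    (hfib : ∀ i b, ((univ : Finset W).filter (fun w => c w = some (i, b))).card = d)
    (j : ℕ) :
    ∀ (S : Finset W) (K : Finset ι) (L : ℕ),
      (∀ i ∈ K, ∀ b w, c w = some (i, b) → w ∈ S) →
      (∀ i, i ∉ K → ∃ b, ∀ w, c w = some (i, b) → w ∉ S) →
      S.card = L + d * K.card → d * K.card ≤ L →
      ((cnt H S j : ℕ) : ℚ) = ph d j L K.card := by
  -- the number of vertices of `S` in the blocks of `K`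
  have hin : ∀ (S : Finset W) (K : Finset ι),
      (∀ i ∈ K, ∀ b w, c w = some (i, b) → w ∈ S) →
      (inBlocks c S K).card = 2 * d * K.card := by
    intro S K hK
    have h1 : inBlocks c S K = K.biUnion (fun i =>
        (univ : Finset Bool).biUnion (fun b => univ.filter (fun w => c w = some (i, b)))) := by
      ext w
      simp only [inBlocks, Finset.mem_filter, Finset.mem_biUnion, Finset.mem_univ, true_and]
      constructor
      · rintro ⟨_, i, hi, b, hb⟩
        exact ⟨i, hi, b, hb⟩
      · rintro ⟨i, hi, b, hb⟩
        exact ⟨hK i hi b w hb, i, hi, b, hb⟩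
    rw [h1, Finset.card_biUnion]
    · have : ∀ i ∈ K, ((univ : Finset Bool).biUnion
          (fun b => univ.filter (fun w => c w = some (i, b)))).card = 2 * d := by
        intro i _
        rw [Finset.card_biUnion]
        · simp [hfib]
        · intro b _ b' _ hbb
          rw [Function.onFun, Finset.disjoint_left]
          intro w hw hw'
          simp only [Finset.mem_filter, Finset.mem_univ, true_and] at hw hw'
          rw [hw] at hw'
          exact hbb (by simpa using hw')
      rw [Finset.sum_congr rfl this, Finset.sum_const, smul_eq_mul]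
      ring
    · intro i _ i' _ hii
      rw [Function.onFun, Finset.disjoint_left]
      intro w hw hw'
      simp only [Finset.mem_biUnion, Finset.mem_filter, Finset.mem_univ, true_and] at hw hw'
      obtain ⟨b, hb⟩ := hw
      obtain ⟨b', hb'⟩ := hw'
      rw [hb] at hb'
      have := Option.some.inj hb'
      exact hii (congrArg Prod.fst this)
  induction j with
  | zero =>
    intro S K L _ _ _ _
    rw [cnt_zero, ph_coeff_zero]; norm_num
  | succ j ih =>
    intro S K L hK hK' hcard hL
    rcases Nat.eq_zero_or_pos L with hL0 | hLpos
    · subst hL0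
      have hSe : S = ∅ := by
        rw [← Finset.card_eq_zero]; omega
      have hK0 : K.card = 0 := by
        rcases Nat.eq_zero_or_pos K.card with h | h
        · exact h
        · have : 1 ≤ d * K.card := Nat.mul_pos hd h
          omega
      rw [hSe, cnt_empty H j, hK0, ph_zero_right]
      simp
    obtain ⟨M, rfl⟩ : ∃ M, L = M + 1 := ⟨L - 1, by omega⟩
    have hsucc := cnt_succ H S j
    have halg := ph_succ d j M K.card hd hL
    -- type A vertices
    have hA : ∀ v ∈ S, (∃ i ∈ K, ∃ b, c v = some (i, b)) →
        ((cnt H (del H S v) j : ℕ) : ℚ) = ph d j M (K.card - 1) := by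
      rintro v hv ⟨i, hi, b, hb⟩
      have hnb : nb H S v = univ.filter (fun w => c w = some (i, !b)) := by
        ext w
        simp only [nb, Finset.mem_filter, Finset.mem_univ, true_and, hadj]
        constructor
        · rintro ⟨_, i', b', h1, h2⟩
          rw [hb] at h1
          have := Option.some.inj h1
          obtain ⟨rfl, rfl⟩ : i = i' ∧ b = b' := ⟨congrArg Prod.fst this, congrArg Prod.snd this⟩
          exact h2
        · intro h
          exact ⟨hK i hi _ w h, i, b, hb, h⟩
      have hnbc : (nb H S v).card = d := by rw [hnb]; exact hfib i _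
      have hcd := card_del H S v hv
      have hKe : (K.erase i).card = K.card - 1 := Finset.card_erase_of_mem hi
      have hKpos : 1 ≤ K.card := Finset.card_pos.2 ⟨i, hi⟩
      obtain ⟨p, hp⟩ : ∃ p, K.card = p + 1 := ⟨K.card - 1, by omega⟩
      rw [← hKe]
      apply ih (del H S v) (K.erase i) M
      · intro i' hi' b' w hw
        rw [Finset.mem_erase] at hi'
        simp only [del, Finset.mem_filter]
        refine ⟨hK i' hi'.2 b' w hw, ?_, ?_⟩
        · rintro rfl
          rw [hb] at hw
          exact hi'.1 (congrArg Prod.fst (Option.some.inj hw)).symm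
        · intro hadj'
          rw [hadj] at hadj'
          obtain ⟨i'', b'', h1, h2⟩ := hadj'
          rw [hb] at h1
          rw [hw] at h2
          have e1 := congrArg Prod.fst (Option.some.inj h1)
          have e2 := congrArg Prod.fst (Option.some.inj h2)
          simp only at e1 e2
          exact hi'.1 (e2.trans e1.symm)
      · intro i' hi'
        by_cases h : i' = i
        · refine ⟨!b, fun w hw => ?_⟩
          simp only [del, Finset.mem_filter, not_and, not_not]
          intro _ _
          rw [hadj]
          exact ⟨i, b, hb, by rw [hw, h]⟩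
        · have : i' ∉ K := fun h' => hi' (Finset.mem_erase.2 ⟨h, h'⟩)
          obtain ⟨b', hb'⟩ := hK' i' this
          refine ⟨b', fun w hw h1 => hb' w hw ?_⟩
          simp only [del, Finset.mem_filter] at h1
          exact h1.1
      · rw [hKe, hp, Nat.add_sub_cancel]
        rw [hp] at hcard
        have : d * (p + 1) = d * p + d := by ring
        omega
      · rw [hKe, hp, Nat.add_sub_cancel]
        rw [hp] at hL
        have : d * (p + 1) = d * p + d := by ring
        omega
    -- type B vertices
    have hB : ∀ v ∈ S, (¬ ∃ i ∈ K, ∃ b, c v = some (i, b)) →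
        ((cnt H (del H S v) j : ℕ) : ℚ) = ph d j M K.card := by
      intro v hv hnot
      have hnb : nb H S v = ∅ := by
        rw [Finset.eq_empty_iff_forall_notMem]
        intro w hw
        simp only [nb, Finset.mem_filter, hadj] at hw
        obtain ⟨hwS, i, b, h1, h2⟩ := hw
        have hiK : i ∉ K := fun h => hnot ⟨i, h, b, h1⟩
        obtain ⟨b', hb'⟩ := hK' i hiK
        by_cases hbb : b' = b
        · rw [hbb] at hb'
          exact hb' v h1 hv
        · have : b' = !b := by
            cases b <;> cases b' <;> simp_all
          rw [this] at hb'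
          exact hb' w h2 hwS
      have hcd := card_del H S v hv
      rw [hnb, Finset.card_empty] at hcd
      -- `v` is outside the blocks, so there is room
      have hroom : 2 * d * K.card + 1 ≤ S.card := by
        rw [← hin S K hK]
        have h1 : v ∉ inBlocks c S K := by
          simp only [inBlocks, Finset.mem_filter, not_and]
          exact fun _ => hnot
        have h2 : insert v (inBlocks c S K) ⊆ S := by
          intro w hw
          rw [Finset.mem_insert] at hw
          rcases hw with rfl | hw
          · exact hv
          · simp only [inBlocks, Finset.mem_filter] at hw; exact hw.1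
        have := Finset.card_le_card h2
        rw [Finset.card_insert_of_notMem h1] at this
        exact this
      apply ih (del H S v) K M
      · intro i hi b w hw
        simp only [del, Finset.mem_filter]
        refine ⟨hK i hi b w hw, ?_, ?_⟩
        · rintro rfl
          exact hnot ⟨i, hi, b, hw⟩
        · intro h
          have : w ∈ nb H S v := by
            simp only [nb, Finset.mem_filter]
            exact ⟨hK i hi b w hw, h⟩
          rw [hnb] at this
          simp at this
      · intro i hi
        obtain ⟨b, hb⟩ := hK' i hi
        refine ⟨b, fun w hw h1 => hb w hw ?_⟩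
        simp only [del, Finset.mem_filter] at h1
        exact h1.1
      · omega
      · have : 2 * d * K.card = d * K.card + d * K.card := by ring
        omega
    have hsumq : ((j : ℚ) + 1) * ((cnt H S (j + 1) : ℕ) : ℚ) =
        ∑ v ∈ S, ((cnt H (del H S v) j : ℕ) : ℚ) := by
      have : (((j + 1) * cnt H S (j + 1) : ℕ) : ℚ) =
          ((∑ v ∈ S, cnt H (del H S v) j : ℕ) : ℚ) := by rw [hsucc]
      push_cast at this
      exact this
    have hsum : ∑ v ∈ S, ((cnt H (del H S v) j : ℕ) : ℚ) =
        2 * d * K.card * ph d j M (K.card - 1) + ((M : ℚ) + 1 - d * K.card) * ph d j M K.card := by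
      rw [← Finset.sum_filter_add_sum_filter_not S (fun w => ∃ i ∈ K, ∃ b, c w = some (i, b))]
      have e1 : ∑ v ∈ S.filter (fun w => ∃ i ∈ K, ∃ b, c w = some (i, b)),
          ((cnt H (del H S v) j : ℕ) : ℚ) = 2 * d * K.card * ph d j M (K.card - 1) := by
        rw [Finset.sum_congr rfl (fun v hv => hA v (Finset.mem_filter.1 hv).1
          (Finset.mem_filter.1 hv).2), Finset.sum_const, nsmul_eq_mul]
        have := hin S K hK
        unfold inBlocks at this
        rw [this]
        push_cast
        ring
      have e2 : ∑ v ∈ S.filter (fun w => ¬ ∃ i ∈ K, ∃ b, c w = some (i, b)),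
          ((cnt H (del H S v) j : ℕ) : ℚ) = ((M : ℚ) + 1 - d * K.card) * ph d j M K.card := by
        rw [Finset.sum_congr rfl (fun v hv => hB v (Finset.mem_filter.1 hv).1
          (Finset.mem_filter.1 hv).2), Finset.sum_const, nsmul_eq_mul]
        have h1 := hin S K hK
        unfold inBlocks at h1
        have h2 := Finset.card_filter_add_card_filter_not (s := S)
          (fun w => ∃ i ∈ K, ∃ b, c w = some (i, b))
        rw [h1, hcard] at h2
        have h3 : (((S.filter (fun w => ¬ ∃ i ∈ K, ∃ b, c w = some (i, b))).card : ℕ) : ℚ) =
            (M : ℚ) + 1 - d * K.card := by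
          have h4 : ((2 * d * K.card + (S.filter (fun w => ¬ ∃ i ∈ K, ∃ b, c w = some (i, b))).card
              : ℕ) : ℚ) = ((M + 1 + d * K.card : ℕ) : ℚ) := by rw [h2]
          push_cast at h4
          linarith
        rw [h3]
      rw [e1, e2]
    rw [hsum] at hsumq
    have hj : (0 : ℚ) < (j : ℚ) + 1 := by positivity
    refine mul_left_cancel₀ hj.ne' ?_
    rw [hsumq, halg]
    ring

end hlike

end Pool.Agent.Lib.MP_99e3ed_co.H90
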