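import Mathlib

set_option autoImplicit false

open Polynomial

namespace Pool.Agent.Lib.MP_99e3ed_co.H90

/-- all coefficients are nonnegative -/
def NN (p : ℤ[X]) : Prop := ∀ i, 0 ≤ p.coeff i

lemma NN.add {p q : ℤ[X]} (hp : NN p) (hq : NN q) : NN (p + q) := by
  intro i
  rw [coeff_add]
  exact add_nonneg (hp i) (hq i)

lemma NN.mul {p q : ℤ[X]} (hp : NN p) (hq : NN q) : NN (p * q) := by
  intro i
  rw [coeff_mul]
  exact Finset.sum_nonneg fun x _ => mul_nonneg (hp _) (hq _)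

lemma NN_one : NN (1 : ℤ[X]) := by
  intro i
  rw [coeff_one]
  split_ifs <;> norm_num

lemma NN_X : NN (X : ℤ[X]) := by
  intro i
  rw [coeff_X]
  split_ifs <;> norm_num

lemma NN.pow {p : ℤ[X]} (hp : NN p) (k : ℕ) : NN (p ^ k) := by
  induction k with
  | zero => simpa using NN_one
  | succ k ih => rw [pow_succ]; exact ih.mul hp

/-- `y = 1 + X` -/
noncomputable def yy : ℤ[X] := 1 + X

/-- `P = 2 y ^ d - 1`, the independence polynomial of `K_{d,d}` -/
noncomputable def PP (d : ℕ) : ℤ[X] := 2 * yy ^ d - 1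

lemma NN_yy : NN yy := NN_one.add NN_X

lemma NN_ysub (d : ℕ) : NN (yy ^ d - 1) := by
  induction d with
  | zero => simp [NN]
  | succ d ih =>
    have h : yy ^ (d + 1) - 1 = yy * (yy ^ d - 1) + X := by
      unfold yy; ring
    rw [h]
    exact (NN_yy.mul ih).add NN_X

lemma NN_PP (d : ℕ) : NN (PP d) := by
  have h : PP d = (yy ^ d - 1) + (yy ^ d - 1) + 1 := by unfold PP; ring
  rw [h]
  exact ((NN_ysub d).add (NN_ysub d)).add NN_one

/-- the independence polynomial of `q` copies of `K_{d,d}` and `L - d q` isolated vertices -/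
noncomputable def Phi (d L q : ℕ) : ℤ[X] := yy ^ (L - d * q) * PP d ^ q

lemma NN_Phi (d L q : ℕ) : NN (Phi d L q) := (NN_yy.pow _).mul ((NN_PP d).pow _)

/-- its coefficients, as rational numbers -/
noncomputable def ph (d j L q : ℕ) : ℚ := ((Phi d L q).coeff j : ℤ)

lemma ph_nonneg (d j L q : ℕ) : 0 ≤ ph d j L q := by
  unfold ph
  exact_mod_cast NN_Phi d L q j

lemma ph_zero_right (d j L : ℕ) : ph d j L 0 = (L.choose j : ℚ) := by
  unfold ph Phi yy
  rw [mul_zero, Nat.sub_zero, pow_zero, mul_one, coeff_one_add_X_pow]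
  simp

lemma ph_coeff_zero (d L q : ℕ) : ph d 0 L q = 1 := by
  unfold ph
  have : (Phi d L q).coeff 0 = 1 := by
    rw [coeff_zero_eq_eval_zero]
    unfold Phi PP yy
    simp only [eval_mul, eval_pow, eval_sub, eval_add, eval_one, eval_X, eval_ofNat]
    norm_num
  rw [this]; norm_num

lemma deriv_yy (a : ℕ) : derivative (yy ^ a) = (a : ℤ[X]) * yy ^ (a - 1) := by
  rw [derivative_pow]
  unfold yy
  simp

lemma deriv_Phi (d M q : ℕ) (hd : 1 ≤ d) (h : d * q ≤ M + 1) :
    derivative (Phi d (M + 1) q) =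
      ((M + 1 - d * q : ℕ) : ℤ[X]) * Phi d M q + (2 * d * q : ℕ) * Phi d M (q - 1) := by
  unfold Phi
  rw [derivative_mul, deriv_yy, derivative_pow]
  have h1 : derivative (PP d) = 2 * (d : ℤ[X]) * yy ^ (d - 1) := by
    unfold PP
    rw [derivative_sub, derivative_mul, deriv_yy]
    simp
    ring
  rw [h1]
  have h2 : M + 1 - d * q - 1 = M - d * q := by omega
  rw [h2]
  rcases Nat.eq_zero_or_pos q with hq | hq
  · subst hq
    simp
  · obtain ⟨p, rfl⟩ : ∃ p, q = p + 1 := ⟨q - 1, by omega⟩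
    have h3 : d * (p + 1) = d * p + d := by ring
    have h4 : M - d * (p + 1 - 1) = (M + 1 - d * (p + 1)) + (d - 1) := by
      rw [Nat.add_sub_cancel]
      omega
    rw [h4, pow_add, Nat.add_sub_cancel]
    simp only [map_natCast, Nat.cast_mul, Nat.cast_ofNat]
    ring

lemma ph_succ (d j M q : ℕ) (hd : 1 ≤ d) (h : d * q ≤ M + 1) :
    ((j : ℚ) + 1) * ph d (j + 1) (M + 1) q =
      ((M : ℚ) + 1 - d * q) * ph d j M q + 2 * d * q * ph d j M (q - 1) := by
  have h1 := congrArg (fun p => coeff p j) (deriv_Phi d M q hd h)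
  simp only [coeff_derivative, coeff_add] at h1
  rw [← C_eq_natCast, ← C_eq_natCast, coeff_C_mul, coeff_C_mul] at h1
  unfold ph
  have h2 : ((M + 1 - d * q : ℕ) : ℚ) = (M : ℚ) + 1 - d * q := by
    rw [Nat.cast_sub h]; push_cast; ring
  have h3 := congrArg (fun z : ℤ => (z : ℚ)) h1
  push_cast at h3
  rw [h2] at h3
  linarith

/-- `y ^ (c + k d)` expansions: all three polynomials in terms of the same exponent. -/
lemma Phi_eq (d c q : ℕ) : Phi d (d * q + c) q = yy ^ c * PP d ^ q := by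
  unfold Phi
  congr 2
  omega

/-- slope ratio at most two -/
lemma slope_le_two (d j L q : ℕ) (h : d * (q + 2) ≤ L) :
    ph d j L (q + 2) - ph d j L (q + 1) ≤ 2 * (ph d j L (q + 1) - ph d j L q) := by
  obtain ⟨c, rfl⟩ := Nat.exists_eq_add_of_le h
  have e2 : Phi d (d * (q + 2) + c) (q + 2) = yy ^ c * PP d ^ (q + 2) := Phi_eq d c (q + 2)
  have e1 : Phi d (d * (q + 2) + c) (q + 1) = yy ^ (c + d) * PP d ^ (q + 1) := by
    rw [← Phi_eq]; congr 1; ring
  have e0 : Phi d (d * (q + 2) + c) q = yy ^ (c + d + d) * PP d ^ q := by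
    rw [← Phi_eq]; congr 1; ring
  have key : 2 * (Phi d (d * (q + 2) + c) (q + 1) - Phi d (d * (q + 2) + c) q) -
      (Phi d (d * (q + 2) + c) (q + 2) - Phi d (d * (q + 2) + c) (q + 1)) =
      yy ^ c * PP d ^ q * (yy ^ d - 1) := by
    rw [e0, e1, e2]
    have : yy ^ d = yy ^ d := rfl
    simp only [pow_add, pow_one]
    unfold PP
    ring
  have hn : NN (yy ^ c * PP d ^ q * (yy ^ d - 1)) :=
    ((NN_yy.pow _).mul ((NN_PP d).pow _)).mul (NN_ysub d)
  have h1 := hn j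
  rw [← key] at h1
  simp only [coeff_sub] at h1
  have h2 : (2 * (Phi d (d * (q + 2) + c) (q + 1) - Phi d (d * (q + 2) + c) q)).coeff j =
      2 * ((Phi d (d * (q + 2) + c) (q + 1)).coeff j - (Phi d (d * (q + 2) + c) q).coeff j) := by
    rw [show (2 : ℤ[X]) = C 2 from rfl, coeff_C_mul, coeff_sub]
  rw [h2] at h1
  unfold ph
  have h3 : (0 : ℚ) ≤ ((2 * ((Phi d (d * (q + 2) + c) (q + 1)).coeff j -
      (Phi d (d * (q + 2) + c) q).coeff j) - ((Phi d (d * (q + 2) + c) (q + 2)).coeff j -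
      (Phi d (d * (q + 2) + c) (q + 1)).coeff j) : ℤ) : ℚ) := by exact_mod_cast h1
  push_cast at h3
  linarith

/-- slopes are nondecreasing -/
lemma slope_mono (d j L q : ℕ) (h : d * (q + 2) ≤ L) :
    ph d j L (q + 1) - ph d j L q ≤ ph d j L (q + 2) - ph d j L (q + 1) := by
  obtain ⟨c, rfl⟩ := Nat.exists_eq_add_of_le h
  have e2 : Phi d (d * (q + 2) + c) (q + 2) = yy ^ c * PP d ^ (q + 2) := Phi_eq d c (q + 2)
  have e1 : Phi d (d * (q + 2) + c) (q + 1) = yy ^ (c + d) * PP d ^ (q + 1) := by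
    rw [← Phi_eq]; congr 1; ring
  have e0 : Phi d (d * (q + 2) + c) q = yy ^ (c + d + d) * PP d ^ q := by
    rw [← Phi_eq]; congr 1; ring
  have key : (Phi d (d * (q + 2) + c) (q + 2) - Phi d (d * (q + 2) + c) (q + 1)) -
      (Phi d (d * (q + 2) + c) (q + 1) - Phi d (d * (q + 2) + c) q) =
      yy ^ c * PP d ^ q * ((yy ^ d - 1) * (yy ^ d - 1)) := by
    rw [e0, e1, e2]
    simp only [pow_add, pow_one]
    unfold PP
    ring
  have hn : NN (yy ^ c * PP d ^ q * ((yy ^ d - 1) * (yy ^ d - 1))) :=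
    ((NN_yy.pow _).mul ((NN_PP d).pow _)).mul ((NN_ysub d).mul (NN_ysub d))
  have h1 := hn j
  rw [← key] at h1
  simp only [coeff_sub] at h1
  unfold ph
  have h3 : (0 : ℚ) ≤ (((Phi d (d * (q + 2) + c) (q + 2)).coeff j -
      (Phi d (d * (q + 2) + c) (q + 1)).coeff j - ((Phi d (d * (q + 2) + c) (q + 1)).coeff j -
      (Phi d (d * (q + 2) + c) q).coeff j) : ℤ) : ℚ) := by exact_mod_cast h1
  push_cast at h3
  linarith

/-- slopes are nonnegative -/
lemma slope_nonneg (d j L q : ℕ) (h : d * (q + 1) ≤ L) :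
    ph d j L q ≤ ph d j L (q + 1) := by
  obtain ⟨c, rfl⟩ := Nat.exists_eq_add_of_le h
  have e1 : Phi d (d * (q + 1) + c) (q + 1) = yy ^ c * PP d ^ (q + 1) := Phi_eq d c (q + 1)
  have e0 : Phi d (d * (q + 1) + c) q = yy ^ (c + d) * PP d ^ q := by
    rw [← Phi_eq]; congr 1; ring
  have key : Phi d (d * (q + 1) + c) (q + 1) - Phi d (d * (q + 1) + c) q =
      yy ^ c * PP d ^ q * (yy ^ d - 1) := by
    rw [e0, e1]
    simp only [pow_add, pow_one]
    unfold PP
    ring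
  have hn : NN (yy ^ c * PP d ^ q * (yy ^ d - 1)) :=
    ((NN_yy.pow _).mul ((NN_PP d).pow _)).mul (NN_ysub d)
  have h1 := hn j
  rw [← key] at h1
  simp only [coeff_sub] at h1
  unfold ph
  have h3 : (0 : ℚ) ≤ (((Phi d (d * (q + 1) + c) (q + 1)).coeff j -
      (Phi d (d * (q + 1) + c) q).coeff j : ℤ) : ℚ) := by exact_mod_cast h1
  push_cast at h3
  linarith

/-- the value at most doubles -/
lemma ph_le_two (d j L q : ℕ) (h : d * (q + 1) ≤ L) :
    ph d j L (q + 1) ≤ 2 * ph d j L q := by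
  obtain ⟨c, rfl⟩ := Nat.exists_eq_add_of_le h
  have e1 : Phi d (d * (q + 1) + c) (q + 1) = yy ^ c * PP d ^ (q + 1) := Phi_eq d c (q + 1)
  have e0 : Phi d (d * (q + 1) + c) q = yy ^ (c + d) * PP d ^ q := by
    rw [← Phi_eq]; congr 1; ring
  have key : 2 * Phi d (d * (q + 1) + c) q - Phi d (d * (q + 1) + c) (q + 1) =
      yy ^ c * PP d ^ q := by
    rw [e0, e1]
    simp only [pow_add, pow_one]
    unfold PP
    ring
  have hn : NN (yy ^ c * PP d ^ q) := (NN_yy.pow _).mul ((NN_PP d).pow _)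
  have h1 := hn j
  rw [← key] at h1
  rw [coeff_sub, show (2 : ℤ[X]) = C 2 from rfl, coeff_C_mul] at h1
  unfold ph
  have h3 : (0 : ℚ) ≤ ((2 * (Phi d (d * (q + 1) + c) q).coeff j -
      (Phi d (d * (q + 1) + c) (q + 1)).coeff j : ℤ) : ℚ) := by exact_mod_cast h1
  push_cast at h3
  linarith

/-- the value at `q = 1` -/
lemma ph_one_right (d j L : ℕ) (h : d ≤ L) :
    ph d j L 1 = 2 * (L.choose j : ℚ) - ((L - d).choose j : ℚ) := by
  obtain ⟨c, rfl⟩ := Nat.exists_eq_add_of_le h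
  have e1 : Phi d (d + c) 1 = 2 * yy ^ (d + c) - yy ^ c := by
    have := Phi_eq d c 1
    rw [mul_one] at this
    rw [this]
    unfold PP
    ring
  unfold ph
  rw [e1, coeff_sub, show (2 : ℤ[X]) = C 2 from rfl, coeff_C_mul]
  unfold yy
  rw [coeff_one_add_X_pow, coeff_one_add_X_pow, Nat.add_sub_cancel_left]
  push_cast
  ring

end Pool.Agent.Lib.MP_99e3ed_co.H90
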